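import Pool.Agent.Helper19.CP.Spec

/-! CP2 part FP (MP_2619d0_ag): a Sylow `p`-subgroup acting on `m` points, `p ∤ m`, fixes a
point. -/

namespace Pool.Agent.Helper60.CP.FP

/-- A `p`-group acting on `m` points with `p ∤ m` fixes one. -/
theorem exists_fixed {p m : ℕ} (hp : p.Prime) {P : Type} [Group P] [Finite P]
    (hP : IsPGroup p P) (a : P → Fin m → Fin m) (h1 : a 1 = id)
    (hm : ∀ σ τ, a (σ * τ) = a σ ∘ a τ) (hpm : ¬ p ∣ m) : ∃ j, ∀ σ : P, a σ j = j := by
  haveI : Fact p.Prime := ⟨hp⟩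
  letI act : MulAction P (Fin m) :=
    { smul := fun σ j => a σ j
      one_smul := fun j => by
        change a 1 j = j
        rw [h1]; rfl
      mul_smul := fun σ τ j => by
        change a (σ * τ) j = a σ (a τ j)
        rw [hm]; rfl }
  have hcard := hP.nonempty_fixed_point_of_prime_not_dvd_card (Fin m) (by simpa using hpm)
  obtain ⟨j, hj⟩ := hcard
  exact ⟨j, fun σ => hj σ⟩

theorem main : Pool.Agent.Helper19.CP.S_FP := by
  intro p m Γ _ _ π hp h1 hm hpm
  haveI : Fact p.Prime := ⟨hp⟩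
  obtain ⟨P⟩ : Nonempty (Sylow p Γ) := inferInstance
  refine ⟨P, P.isPGroup', P.not_dvd_index, ?_⟩
  obtain ⟨j, hj⟩ := exists_fixed hp P.isPGroup' (fun σ : (P : Subgroup Γ) => π (σ : Γ))
    (by simpa using h1) (fun σ τ => by simpa using hm σ τ) hpm
  exact ⟨j, fun σ hσ => hj ⟨σ, hσ⟩⟩

end Pool.Agent.Helper60.CP.FP
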